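import Pool.Agent.H1Z.LP.Eigen

set_option autoImplicit false

open MeasureTheory

namespace Pool.Agent.Results.MP_c5cda2_mp.CouplingType

/-- the Hilbert space of square summable complex sequences over the integers -/
abbrev Ell : Type := lp (fun _ : ℤ => ℂ) 2

/-- bounded operators on it -/
abbrev Op : Type := Ell →L[ℂ] Ell

/-- uniform limits of periodic sequences -/
def LimitPer (V : ℤ → ℝ) : Prop :=
  ∀ ε : ℝ, 0 < ε → ∃ p : ℕ, 0 < p ∧ ∃ Q : ℤ → ℝ,
    (∀ n : ℤ, Q (n + (p : ℤ)) = Q n) ∧ ∀ n : ℤ, |V n - Q n| < ε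

/-- `H` is the discrete Laplacian plus multiplication by `V` -/
def IsSchr (V : ℤ → ℝ) (H : Op) : Prop :=
  ∀ (ψ : Ell) (n : ℤ), H ψ n = ψ (n - 1) + ψ (n + 1) + (V n : ℂ) * ψ n

/-- `H` has an eigenvector -/
def HasEigenvector (H : Op) : Prop := ∃ (ψ : Ell) (E : ℂ), ψ ≠ 0 ∧ H ψ = E • ψ

/-- the moments of the vector `ψ` -/
noncomputable def moment (H : Op) (ψ : Ell) (k : ℕ) : ℂ := inner ℂ ψ ((H ^ k) ψ)

/-- the three labels -/
inductive Label
  | ac
  | sc
  | pp

/-- `μ` is the spectral measure of the vector `ψ` for the bounded self-adjoint operator `H`: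
a finite measure on the line whose moments are the numbers `⟨ψ, H^k ψ⟩`. -/
def SpectralMeasure (H : Op) (ψ : Ell) (μ : Measure ℝ) : Prop :=
  IsFiniteMeasure μ ∧ ∀ k : ℕ, Integrable (fun x : ℝ => x ^ k) μ ∧
    ((∫ x, x ^ k ∂μ : ℝ) : ℂ) = moment H ψ k

/-- the class of measures named by a label -/
def HasLabel (μ : Measure ℝ) : Label → Prop
  | Label.ac => μ.AbsolutelyContinuous volume
  | Label.sc => μ.MutuallySingular volume ∧ ∀ x : ℝ, μ {x} = 0
  | Label.pp => ∃ S : Set ℝ, S.Countable ∧ μ Sᶜ = 0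

/-- the spectral type: the labels whose spectral subspace holds a nonzero vector -/
def spectralType (H : Op) : Set Label :=
  {t | ∃ ψ : Ell, ψ ≠ 0 ∧ ∃ μ : Measure ℝ, SpectralMeasure H ψ μ ∧ HasLabel μ t}

theorem result :
    ∃ V : ℤ → ℝ, LimitPer V ∧ ∃ l₁ l₂ : ℝ, 0 < l₁ ∧ 0 < l₂ ∧ ∃ H₁ H₂ : Op,
      IsSchr (fun n => l₁ * V n) H₁ ∧ IsSchr (fun n => l₂ * V n) H₂ ∧
      ¬ HasEigenvector H₁ ∧ HasEigenvector H₂ ∧
      Label.pp ∉ spectralType H₁ ∧ Label.pp ∈ spectralType H₂ ∧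
      spectralType H₁ ≠ spectralType H₂ := by
  obtain ⟨V, hL, C, l, hC, hl, hno, hyes⟩ := Pool.Agent.H1Z.LP.coupling_main
  have b1 : ∀ n, |l * V n| ≤ l * C := fun n => by
    rw [abs_mul, abs_of_pos hl]
    exact mul_le_mul_of_nonneg_left (hC n) hl.le
  have b2 : ∀ n, |1 * V n| ≤ C := fun n => by rw [one_mul]; exact hC n
  obtain ⟨H, hH⟩ := Pool.Agent.H1Z.LP.exists_op b1
  obtain ⟨G, hG⟩ := Pool.Agent.H1Z.LP.exists_op b2
  obtain ⟨φ, hφ0, hφ⟩ := hyes G hG
  have hφ1 : G φ = 0 := by simpa using hφ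
  have hφ2 : φ ≠ 0 := by
    intro h
    rw [h] at hφ0
    simp at hφ0
  have n1 : Label.pp ∉ spectralType H := by
    rintro ⟨ψ, hψ, μ, hμ, S, hS, hS0⟩
    have hat : ∀ x, μ {x} = 0 := by
      intro x
      by_contra hc
      obtain ⟨χ, hχ, hχ2⟩ := Pool.Agent.H1Z.LP.IsSpec.eigen_of_atom (hH.sa b1) hμ hc
      exact hχ (hno H hH χ x hχ2)
    haveI : NullSingletonClass μ := ⟨hat⟩
    have h1 : μ Set.univ = 0 := by
      rw [← Set.union_compl_self S]
      exact measure_union_null (hS.measure_zero μ) hS0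
    have h2 : μ = 0 := Measure.measure_univ_eq_zero.1 h1
    have h3 := (hμ.2 0).2
    rw [h2] at h3
    simp only [integral_zero_measure, Complex.ofReal_zero, pow_zero, moment,
      ContinuousLinearMap.one_apply] at h3
    exact hψ (inner_self_eq_zero.1 h3.symm)
  have n2 : Label.pp ∈ spectralType G := by
    refine ⟨φ, hφ2, ENNReal.ofReal (‖φ‖ ^ 2) • Measure.dirac 0, ⟨?_, fun k => ⟨?_, ?_⟩⟩,
      {0}, Set.countable_singleton 0, by simp⟩
    · constructor
      simp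
    · exact (integrable_dirac (by simp)).smul_measure ENNReal.ofReal_ne_top
    · rw [integral_smul_measure, integral_dirac, ENNReal.toReal_ofReal (by positivity), moment]
      cases k with
      | zero =>
        simp only [pow_zero, smul_eq_mul, mul_one, ContinuousLinearMap.one_apply]
        rw [inner_self_eq_norm_sq_to_K]
        simp
      | succ k =>
        rw [pow_succ G, ContinuousLinearMap.mul_apply, hφ1]
        simp
  refine ⟨V, hL, l, 1, hl, one_pos, H, G, fun ψ n => ?_, fun ψ n => ?_,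
    fun ⟨ψ, E, a, b⟩ => a (hno H hH ψ E b), ⟨φ, _, hφ2, hφ⟩, n1, n2, fun h => n1 (h ▸ n2)⟩
  · rw [hH ψ n]; ring
  · rw [hG ψ n]; ring

end Pool.Agent.Results.MP_c5cda2_mp.CouplingType
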